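import Pool.Agent.Helper29.CY.Goals
import Pool.Agent.Helper4.KC.A2C
import Pool.Agent.Helper69.KC.BOD

/-!
Packet CY-GEO: from cylinders to configurations, with the antipodal separation.
-/

set_option autoImplicit false

open Module

namespace Pool.Agent.Helper79.CY.GEO

open Pool.Agent.Helper80.KC Pool.Agent.Helper29.CY

/-- separation from the distance of two translates -/
theorem sepf {n : ℕ} (A B : Submodule ℝ (E n)) (w : E n)
    (h : ∀ a ∈ A, ∀ b ∈ B, 2 ≤ ‖w - (a + b)‖) :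
    ∃ f ∈ Aᗮ ⊓ Bᗮ, ‖f‖ = 1 ∧ 1 ≤ |inner ℝ ((1 / 2 : ℝ) • w) f| := by
  set K := Aᗮ ⊓ Bᗮ with hK
  set g := K.starProjection w with hg
  have hgK : g ∈ K := Submodule.starProjection_apply_mem _ _
  have hgo : w - g ∈ Kᗮ := Submodule.sub_starProjection_mem_orthogonal _
  have hKo : Kᗮ = A ⊔ B := by
    rw [hK, Submodule.inf_orthogonal, Submodule.orthogonal_orthogonal]
  have hmem : w - g ∈ A ⊔ B := hKo ▸ hgo
  obtain ⟨a, ha, b, hb, hab⟩ := Submodule.mem_sup.1 hmem
  have h3 : g = w - (a + b) := by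
    rw [hab]
    abel
  have h4 : 2 ≤ ‖g‖ := by
    rw [h3]
    exact h a ha b hb
  have hg0 : 0 < ‖g‖ := by linarith
  have hin : inner ℝ w g = ‖g‖ ^ 2 := by
    have h5 : inner ℝ (w - g) g = 0 := by
      rw [real_inner_comm]
      exact (Submodule.mem_orthogonal _ _).1 hgo g hgK
    rw [inner_sub_left, real_inner_self_eq_norm_sq] at h5
    linarith
  refine ⟨‖g‖⁻¹ • g, Submodule.smul_mem _ _ hgK, ?_, ?_⟩
  · rw [norm_smul, norm_inv, norm_norm, inv_mul_cancel₀ hg0.ne']
  · rw [inner_smul_left, inner_smul_right, hin]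
    have h6 : (starRingEnd ℝ) (1 / 2 : ℝ) * (‖g‖⁻¹ * ‖g‖ ^ 2) = ‖g‖ / 2 := by
      have : (starRingEnd ℝ) (1 / 2 : ℝ) = 1 / 2 := rfl
      rw [this]
      field_simp
    rw [h6, abs_of_pos (by linarith)]
    linarith

theorem t : S_GEO := by
  intro j n C hC hd hd'
  have hcyl : ∀ i, ∃ L : AffineSubspace ℝ (E (3 + j)), (L : Set (E (3 + j))).Nonempty ∧
      finrank ℝ L.direction = j ∧ C i = {x | Metric.infDist x (L : Set (E (3 + j))) ≤ 1} :=
    fun i => (hC i).1
  choose L hne hdim hCL using hcyl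
  have hfoot : ∀ i, ∃ q ∈ L i, q ∈ (L i).directionᗮ ∧ ‖q‖ = 2 := by
    intro i
    obtain ⟨q, h1, h2, h3⟩ := Pool.Agent.Helper4.KC.exists_foot (L i) (hne i)
    refine ⟨q, h1, h2, h3.trans ?_⟩
    rw [← Pool.Agent.Helper69.KC.touches_iff (L i) (hne i), ← hCL i]
    exact (hC i).2
  choose q hqL hqN hq2 using hfoot
  have hdist : ∀ i k, i ≠ k → ∀ x ∈ L i, ∀ y ∈ L k, 2 ≤ dist x y := by
    intro i k hik
    rw [← Pool.Agent.Helper69.KC.disjoint_iff' (L i) (L k) (hne i) (hne k), ← hCL i, ← hCL k]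
    exact hd i k hik
  have hdist' : ∀ i k, i ≠ k → ∀ x ∈ L i, ∀ y ∈ L k, 2 ≤ dist x (-y) := by
    intro i k hik
    have := hd' i k hik
    rw [hCL i, hCL k] at this
    exact Pool.Agent.Helper29.CC.disjoint_anti _ _ (hne i) this
  have hmv : ∀ i, ∀ a ∈ (L i).direction, q i - a ∈ L i := by
    intro i a ha
    have h1 := AffineSubspace.vadd_mem_of_mem_direction ((L i).direction.neg_mem ha) (hqL i)
    rwa [vadd_eq_add, neg_add_eq_sub] at h1
  refine ⟨fun i => (L i).directionᗮ, fun i => (1 / 2 : ℝ) • q i, ?_⟩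
  refine { dim := ?_, mem := ?_, nrm := ?_, sep := ?_, sep' := ?_ }
  · intro i
    have h1 := (L i).direction.finrank_add_finrank_orthogonal
    rw [hdim i, finrank_euclideanSpace, Fintype.card_fin] at h1
    show finrank ℝ ((L i).directionᗮ) = 3
    omega
  · intro i
    exact Submodule.smul_mem _ _ (hqN i)
  · intro i
    show ‖(1 / 2 : ℝ) • q i‖ = 1
    rw [norm_smul, hq2 i, Real.norm_of_nonneg (by norm_num)]
    norm_num
  · intro i k hik
    have h := sepf (L i).direction (L k).direction (q i - q k) (by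
      intro a ha b hb
      have h1 := hdist i k hik _ (hmv i a ha) _ (hmv k (-b) ((L k).direction.neg_mem hb))
      rw [dist_eq_norm] at h1
      have h2 : q i - q k - (a + b) = q i - a - (q k - -b) := by abel
      rw [h2]
      exact h1)
    show ∃ f ∈ (L i).directionᗮ ⊓ (L k).directionᗮ,
      ‖f‖ = 1 ∧ 1 ≤ |inner ℝ ((1 / 2 : ℝ) • q i - (1 / 2 : ℝ) • q k) f|
    rw [← smul_sub]
    exact h
  · intro i k hik
    have h := sepf (L i).direction (L k).direction (q i + q k) (by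
      intro a ha b hb
      have h1 := hdist' i k hik _ (hmv i a ha) _ (hmv k b hb)
      rw [dist_eq_norm] at h1
      have h2 : q i + q k - (a + b) = q i - a - -(q k - b) := by abel
      rw [h2]
      exact h1)
    show ∃ f ∈ (L i).directionᗮ ⊓ (L k).directionᗮ,
      ‖f‖ = 1 ∧ 1 ≤ |inner ℝ ((1 / 2 : ℝ) • q i + (1 / 2 : ℝ) • q k) f|
    rw [← smul_add]
    exact h

end Pool.Agent.Helper79.CY.GEO
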